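import Pool.Agent.U157.NN.Data

set_option autoImplicit false

namespace Pool.U157.NN

/-- finite sums by recursion -/
def sm (n : ℕ) (f : ℕ → ℕ) : ℕ := Nat.rec 0 (fun k acc => Nat.add acc (f k)) n

/-- bounded conjunction by recursion -/
def al (n : ℕ) (f : ℕ → Bool) : Bool := Nat.rec true (fun k acc => and (f k) acc) n

theorem sm_eq (n : ℕ) (f : ℕ → ℕ) : sm n f = ∑ k ∈ Finset.range n, f k := by
  induction n with
  | zero => rfl
  | succ n ih =>
    rw [Finset.sum_range_succ, ← ih]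
    rfl

theorem al_spec {n : ℕ} {f : ℕ → Bool} (h : al n f = true) : ∀ k < n, f k = true := by
  induction n with
  | zero => intro k hk; omega
  | succ n ih =>
    have h' : (f n && al n f) = true := h
    rw [Bool.and_eq_true] at h'
    intro k hk
    rcases Nat.lt_succ_iff_lt_or_eq.1 hk with h1 | h1
    · exact ih h'.2 k h1
    · rw [h1]; exact h'.1

/-- base 128 digits -/
def dgt (A n : ℕ) : ℕ := Nat.land (Nat.shiftRight A (Nat.mul 7 n)) 127

def wd (k : ℕ) : ℕ := Nat.land (Nat.shiftRight 0x14645432 (Nat.mul 4 k)) 15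

def Wn (k a b : ℕ) : ℕ := dgt cWT (Nat.add (Nat.mul (Nat.add (Nat.mul k 8) a) 8) b)
def Vn (s k a : ℕ) : ℕ := dgt cVT (Nat.add (Nat.mul (Nat.add (Nat.mul s 8) k) 8) a)
def Bn (s j a : ℕ) : ℕ := dgt cDT (Nat.add (Nat.mul (Nat.add (Nat.mul s 8) j) 8) a)
def Jn (s j : ℕ) : ℕ := dgt cJT (Nat.add (Nat.mul s 65) j)
def Cn (i s : ℕ) : ℕ := dgt cCT (Nat.add (Nat.mul i 65) s)
def pk (j : ℕ) : ℕ := Nat.land (Nat.shiftRight cPT (Nat.add (Nat.mul 9 j) 6)) 7
def pa (j : ℕ) : ℕ := Nat.land (Nat.shiftRight cPT (Nat.add (Nat.mul 9 j) 3)) 7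
def pb (j : ℕ) : ℕ := Nat.land (Nat.shiftRight cPT (Nat.mul 9 j)) 7

/-- power with exponent one in layer zero and two else -/
def pw (k v : ℕ) : ℕ := bif Nat.beq k 0 then v else Nat.mul v v

theorem chk_V0 : al 65 (fun s => and (Nat.beq (Nat.mod s 71) (Vn s 0 0)) (Nat.beq (Vn s 0 1) 1)) = true := by
  decide +kernel

theorem chk_V : al 65 (fun s => al 6 (fun k => al (wd (Nat.succ k)) (fun a =>
    Nat.beq (Nat.mod (sm (wd k) (fun b => Nat.mul (Wn k a b) (pw k (Vn s k b)))) 71)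
      (Vn s (Nat.succ k) a)))) = true := by
  decide +kernel

theorem chk_B0 : al 65 (fun s => Nat.beq (Bn s 0 0) 1) = true := by
  decide +kernel

theorem chk_B : al 65 (fun s => al 6 (fun j => al (wd (Nat.sub 6 j)) (fun b =>
    Nat.beq (Nat.mod (sm (wd (Nat.sub 7 j)) (fun a =>
      Nat.mul (Nat.mul (Bn s j a) (Wn (Nat.sub 6 j) a b)) (Nat.mul 2 (Vn s (Nat.sub 6 j) b)))) 71)
      (Bn s (Nat.succ j) b)))) = true := by
  decide +kernel

theorem chk_J : al 65 (fun s => al 65 (fun j =>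
    Nat.beq (Nat.mod (Nat.mul (Bn s (Nat.sub 6 (pk j)) (pa j)) (pw (pk j) (Vn s (pk j) (pb j)))) 71)
      (Jn s j))) = true := by
  decide +kernel

theorem chk_C : al 65 (fun i => al 65 (fun j =>
    Nat.beq (Nat.mod (sm 65 (fun s => Nat.mul (Cn i s) (Jn s j))) 71)
      (bif Nat.beq i j then 1 else 0))) = true := by
  decide +kernel

theorem chk_pos : al 65 (fun j => and (Nat.blt (pk j) 7)
    (and (Nat.blt (pa j) (wd (Nat.succ (pk j)))) (Nat.blt (pb j) (wd (pk j))))) = true := by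
  decide +kernel

end Pool.U157.NN
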