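import Pool.Agent.U157.NN.Jac
import Pool.Agent.U157.NN.Chk

set_option autoImplicit false

namespace Pool.U157.NN

open MvPolynomial Finset

/-- integer evaluation point -/
def ptN (s : ℕ) (b : ℕ) : ℕ := if b = 0 then s else 1

theorem cast_of_mod {A v : ℕ} (h : A % 71 = v) : ((A : ℕ) : ZMod 71) = (v : ZMod 71) := by
  rw [← h, ZMod.natCast_mod]

theorem beq_ff {m n : ℕ} (h : m ≠ n) : Nat.beq m n = false := by
  cases hb : Nat.beq m n with
  | false => rfl
  | true => exact absurd (Nat.eq_of_beq_eq_true hb) h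

theorem pw_eq (k v : ℕ) : pw k v = v ^ ex k := by
  unfold pw ex
  by_cases hk : k = 0
  · subst hk; simp
  · rw [beq_ff hk, if_neg hk, cond_false, pow_two]
    rfl

theorem V_ok (s : ℕ) (hs : s < 65) (k : ℕ) (hk : k ≤ 6) (a : ℕ) (ha : a < wd k) :
    ((nv wd Wn (ptN s) k a : ℕ) : ZMod 71) = ((Vn s k a : ℕ) : ZMod 71) := by
  induction k generalizing a with
  | zero =>
    have h := al_spec chk_V0 s hs
    rw [Bool.and_eq_true] at h
    have h1 : s % 71 = Vn s 0 0 := Nat.eq_of_beq_eq_true h.1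
    have h2 : Vn s 0 1 = 1 := Nat.eq_of_beq_eq_true h.2
    have ha' : a < 2 := ha
    rw [nv_zero]
    interval_cases a
    · exact cast_of_mod h1
    · rw [h2]; rfl
  | succ k ih =>
    have h := al_spec (al_spec (al_spec chk_V s hs) k (by omega)) a ha
    have h1 := Nat.eq_of_beq_eq_true h
    rw [sm_eq] at h1
    rw [show Vn s (k + 1) a = Vn s (Nat.succ k) a from rfl, ← cast_of_mod h1, nv_succ]
    push_cast
    refine Finset.sum_congr rfl fun b hb => ?_
    rw [ih (by omega) b (Finset.mem_range.1 hb)]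
    rw [pw_eq]
    rw [show Nat.mul (Wn k a b) (Vn s k b ^ ex k) = Wn k a b * Vn s k b ^ ex k from rfl]
    push_cast
    rfl

theorem B_ok (s : ℕ) (hs : s < 65) (j : ℕ) (hj : j ≤ 6) (a : ℕ) (ha : a < wd (7 - j)) :
    ((bp wd Wn (ptN s) j a : ℕ) : ZMod 71) = ((Bn s j a : ℕ) : ZMod 71) := by
  induction j generalizing a with
  | zero =>
    have h1 : Bn s 0 0 = 1 := Nat.eq_of_beq_eq_true (al_spec chk_B0 s hs)
    have ha' : a < 1 := ha
    have ha0 : a = 0 := by omega
    subst ha0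
    rw [bp_zero, if_pos rfl, h1]
  | succ j ih =>
    have ha' : a < wd (Nat.sub 6 j) := by
      have : 7 - (j + 1) = Nat.sub 6 j := by show 7 - (j + 1) = 6 - j; omega
      rw [← this]; exact ha
    have h := al_spec (al_spec (al_spec chk_B s hs) j (by omega)) a ha'
    have h1 := Nat.eq_of_beq_eq_true h
    rw [sm_eq] at h1
    rw [show Bn s (j + 1) a = Bn s (Nat.succ j) a from rfl, ← cast_of_mod h1, bp_succ]
    push_cast
    refine Finset.sum_congr rfl fun b hb => ?_
    rw [ih (by omega) b (Finset.mem_range.1 hb), V_ok s hs (6 - j) (by omega) a ha']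
    rw [show Nat.mul (Nat.mul (Bn s j b) (Wn (Nat.sub 6 j) b a)) (Nat.mul 2 (Vn s (Nat.sub 6 j) a))
      = Bn s j b * Wn (6 - j) b a * (2 * Vn s (6 - j) a) from rfl]
    push_cast
    rfl

/-- chosen weights -/
def posn (j : Fin 65) : ℕ × ℕ × ℕ := (pk j, pa j, pb j)

theorem pos_ok (j : Fin 65) : (posn j).1 < 7 ∧ (posn j).2.1 < wd ((posn j).1 + 1) ∧
    (posn j).2.2 < wd (posn j).1 := by
  have h := al_spec chk_pos j j.2
  rw [Bool.and_eq_true, Bool.and_eq_true] at h
  refine ⟨?_, ?_, ?_⟩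
  · exact Nat.le_of_ble_eq_true h.1
  · exact Nat.le_of_ble_eq_true h.2.1
  · exact Nat.le_of_ble_eq_true h.2.2

/-- natural number Jacobian -/
def Jnat (s j : Fin 65) : ℕ :=
  bp wd Wn (ptN s) (6 - (posn j).1) (posn j).2.1 * nv wd Wn (ptN s) (posn j).1 (posn j).2.2 ^
    ex (posn j).1

theorem Jnat_ok (s j : Fin 65) : ((Jnat s j : ℕ) : ZMod 71) = ((Jn s j : ℕ) : ZMod 71) := by
  obtain ⟨h1, h2, h3⟩ := pos_ok j
  unfold Jnat
  have h := Nat.eq_of_beq_eq_true (al_spec (al_spec chk_J s s.2) j j.2)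
  rw [← cast_of_mod h, pw_eq]
  rw [show Nat.mul (Bn s (Nat.sub 6 (pk j)) (pa j)) (Vn s (pk j) (pb j) ^ ex (pk j)) =
    Bn s (6 - (posn j).1) (posn j).2.1 * Vn s (posn j).1 (posn j).2.2 ^ ex (posn j).1 from rfl]
  push_cast
  rw [B_ok s s.2 _ (by omega) _ (by
    have : 7 - (6 - (posn j).1) = (posn j).1 + 1 := by omega
    rw [this]; exact h2), V_ok s s.2 _ (by omega) _ h3]

theorem det_ne : (Matrix.of fun s j : Fin 65 => ((Jnat s j : ℕ) : ℤ)).det ≠ 0 := by
  intro h0
  have h1 := congrArg (Int.castRingHom (ZMod 71)) h0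
  rw [RingHom.map_det, map_zero] at h1
  have h2 : (Int.castRingHom (ZMod 71)).mapMatrix (Matrix.of fun s j : Fin 65 => ((Jnat s j : ℕ) : ℤ)) =
      Matrix.of fun s j : Fin 65 => ((Jn s j : ℕ) : ZMod 71) := by
    ext s j
    simp only [RingHom.mapMatrix_apply, Matrix.map_apply, Matrix.of_apply]
    rw [← Jnat_ok]
    simp
  rw [h2] at h1
  have h3 : (Matrix.of fun i s : Fin 65 => ((Cn i s : ℕ) : ZMod 71)) *
      (Matrix.of fun s j : Fin 65 => ((Jn s j : ℕ) : ZMod 71)) = 1 := by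
    ext i j
    rw [Matrix.mul_apply, Matrix.one_apply]
    have h := Nat.eq_of_beq_eq_true (al_spec (al_spec chk_C i i.2) j j.2)
    rw [sm_eq] at h
    have h' := cast_of_mod h
    rw [Nat.cast_sum, Finset.sum_range] at h'
    have h4 : ∀ s : Fin 65, ((Nat.mul (Cn i s) (Jn s j) : ℕ) : ZMod 71) =
        (Matrix.of fun i s : Fin 65 => ((Cn i s : ℕ) : ZMod 71)) i s *
        (Matrix.of fun s j : Fin 65 => ((Jn s j : ℕ) : ZMod 71)) s j := by
      intro s
      simp only [Matrix.of_apply]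
      exact Nat.cast_mul _ _
    rw [Finset.sum_congr rfl (fun s _ => h4 s)] at h'
    rw [h']
    by_cases hij : i = j
    · subst hij
      rw [if_pos rfl]
      simp
    · rw [if_neg hij]
      rw [beq_ff (fun h => hij (Fin.ext h) : (i : ℕ) ≠ (j : ℕ))]
      simp
  have h4 := congrArg Matrix.det h3
  rw [Matrix.det_mul, h1, mul_zero, Matrix.det_one] at h4
  exact absurd h4 (by decide)

theorem fill_wd : Fill wd := by
  refine fill_of_jac wd rfl rfl (fun k a b => ((Wn k a b : ℕ) : ℂ)) posn pos_ok ?_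
  have h : (Matrix.of fun s j : Fin 65 => Je wd (fun k a b => ((Wn k a b : ℕ) : ℂ))
      (pt ((s : ℕ) : ℂ)) (posn j)) =
      (Int.castRingHom ℂ).mapMatrix (Matrix.of fun s j : Fin 65 => ((Jnat s j : ℕ) : ℤ)) := by
    ext s j
    simp only [RingHom.mapMatrix_apply, Matrix.map_apply, Matrix.of_apply]
    unfold Je Jnat
    have hpt : (fun b => (Nat.castRingHom ℂ) (ptN s b)) = pt ((s : ℕ) : ℂ) := by
      funext b
      unfold ptN pt
      split_ifs <;> simp
    have hn : ∀ k a, nv wd (fun k a b => ((Wn k a b : ℕ) : ℂ)) (pt ((s : ℕ) : ℂ)) k a =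
        ((nv wd Wn (ptN s) k a : ℕ) : ℂ) := by
      intro k a
      have := nv_map (Nat.castRingHom ℂ) wd Wn (ptN s) k a
      rw [hpt] at this
      exact this.symm
    have hb : ∀ k a, bp wd (fun k a b => ((Wn k a b : ℕ) : ℂ)) (pt ((s : ℕ) : ℂ)) k a =
        ((bp wd Wn (ptN s) k a : ℕ) : ℂ) := by
      intro k a
      have := bp_map (Nat.castRingHom ℂ) wd Wn (ptN s) k a
      rw [hpt] at this
      exact this.symm
    rw [hn, hb, eq_intCast]
    push_cast
    rfl
  rw [h, ← RingHom.map_det]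
  simp only [eq_intCast, ne_eq, Int.cast_eq_zero]
  exact det_ne

end Pool.U157.NN
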