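import Pool.Agent.U157.NN.One
import Pool.Agent.U157.NN.Cert

set_option autoImplicit false

namespace Pool.U157.NN

open MvPolynomial

/-- extension of a width vector by zero -/
def ext8 (e : Fin (7 + 1) → ℕ) (k : ℕ) : ℕ := if h : k < 8 then e ⟨k, h⟩ else 0

theorem fold_eq (e : Fin (7 + 1) → ℕ) (W : ℕ → ℕ → ℕ → ℂ) :
    ((List.finRange 7).foldl
            (fun (h : ℕ → MvPolynomial ℕ ℂ) (k : Fin 7) (a : ℕ) =>
              ∑ b ∈ Finset.range (e k.castSucc),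
                MvPolynomial.C (W (k : ℕ) a b) * h b ^ (if (k : ℕ) = 0 then 1 else 2))
            (fun b : ℕ => (MvPolynomial.X b : MvPolynomial ℕ ℂ))) =
    nv (ext8 e) (fun k a b => (C (W k a b) : MvPolynomial ℕ ℂ)) (fun b => X b) 7 := by
  have hl : List.finRange 7 = [0, 1, 2, 3, 4, 5, 6] := by decide
  rw [hl]
  simp only [List.foldl_cons, List.foldl_nil]
  funext a
  rfl

/-- the filling property of the frozen statement for seven layers and exponent two -/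
def Fill0 (e : Fin (7 + 1) → ℕ) : Prop :=
    ∀ P : MvPolynomial (ℕ × (ℕ →₀ ℕ)) ℂ,
      (∀ W : Fin 7 → ℕ → ℕ → ℂ,
        MvPolynomial.eval (fun p : ℕ × (ℕ →₀ ℕ) => MvPolynomial.coeff p.2
          ((List.finRange 7).foldl
            (fun (h : ℕ → MvPolynomial ℕ ℂ) (k : Fin 7) (a : ℕ) =>
              ∑ b ∈ Finset.range (e k.castSucc),
                MvPolynomial.C (W k a b) * h b ^ (if (k : ℕ) = 0 then 1 else 2))
            (fun b : ℕ => (MvPolynomial.X b : MvPolynomial ℕ ℂ)) p.1)) P = 0) →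
      ∀ c : ℕ × (ℕ →₀ ℕ) → ℂ,
        (∀ p : ℕ × (ℕ →₀ ℕ), c p ≠ 0 →
          p.1 < e (Fin.last 7) ∧ (∑ b ∈ p.2.support, p.2 b) = 2 ^ (7 - 1) ∧
            ∀ b ∈ p.2.support, b < e 0) →
        MvPolynomial.eval c P = 0

theorem fill0_iff (e : Fin (7 + 1) → ℕ) : Fill0 e ↔ Fill (ext8 e) := by
  have h7 : ext8 e 7 = e (Fin.last 7) := rfl
  have h0 : ext8 e 0 = e 0 := rfl
  have h64 : 2 ^ (7 - 1) = 64 := by norm_num
  constructor
  · intro h P hP c hc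
    refine h P ?_ c ?_
    · intro W
      set W' : ℕ → ℕ → ℕ → ℂ := fun k => if h : k < 7 then W ⟨k, h⟩ else 0 with hW'
      have hWW : W = fun k : Fin 7 => W' (k : ℕ) := by
        funext k
        rw [hW']
        simp only
        rw [dif_pos k.2]
      rw [hWW]
      have := hP W'
      rw [← fold_eq] at this
      exact this
    · intro p hp
      rw [h64, ← h7, ← h0]
      exact hc p hp
  · intro h P hP c hc
    refine h P ?_ c ?_
    · intro W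
      have := hP (fun k => W (k : ℕ))
      rw [fold_eq] at this
      exact this
    · intro p hp
      have := hc p hp
      rw [h64, ← h7, ← h0] at this
      exact this

/-- the starting vector -/
def d0 (k : Fin (7 + 1)) : ℕ := wd k

theorem d0_fill : Fill0 d0 := by
  rw [fill0_iff]
  intro P hP c hc
  refine fill_wd P ?_ c ?_
  · intro W
    have := hP W
    rw [← this]
    rfl
  · intro p hp
    exact hc p hp

theorem exists_min : ∃ d : Fin (7 + 1) → ℕ, (∀ i, 1 ≤ d i) ∧ d 0 = 2 ∧ d (Fin.last 7) = 1 ∧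
    d ≤ d0 ∧ Fill0 d ∧
    (∀ d' : Fin (7 + 1) → ℕ, (∀ i, 1 ≤ d' i) → d' 0 = d 0 →
      d' (Fin.last 7) = d (Fin.last 7) → d' ≤ d → Fill0 d' → d' = d) := by
  classical
  set S : Set ℕ := {n | ∃ d : Fin (7 + 1) → ℕ, (∀ i, 1 ≤ d i) ∧ d 0 = 2 ∧ d (Fin.last 7) = 1 ∧
    d ≤ d0 ∧ Fill0 d ∧ ∑ i, d i = n} with hS
  have hne : ∃ n, n ∈ S := by
    refine ⟨∑ i, d0 i, d0, ?_, rfl, rfl, le_rfl, d0_fill, rfl⟩
    decide
  obtain ⟨d, h1, h2, h3, h4, h5, h6⟩ := Nat.find_spec hne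
  refine ⟨d, h1, h2, h3, h4, h5, ?_⟩
  intro d' g1 g2 g3 g4 g5
  have hmem : (∑ i, d' i) ∈ S :=
    ⟨d', g1, g2.trans h2, g3.trans h3, g4.trans h4, g5, rfl⟩
  have hle : Nat.find hne ≤ ∑ i, d' i := Nat.find_min' hne hmem
  rw [← h6] at hle
  have hle2 : ∑ i, d' i ≤ ∑ i, d i := Finset.sum_le_sum fun i _ => g4 i
  have heq : ∑ i, d' i = ∑ i, d i := le_antisymm hle2 hle
  have := (Finset.sum_eq_sum_iff_of_le (fun i _ => g4 i)).1 heq
  funext i
  exact this i (Finset.mem_univ i)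

theorem main : ∃ d : Fin (7 + 1) → ℕ, (∀ i, 1 ≤ d i) ∧ Fill0 d ∧
    (∀ d' : Fin (7 + 1) → ℕ, (∀ i, 1 ≤ d' i) → d' 0 = d 0 →
      d' (Fin.last 7) = d (Fin.last 7) → d' ≤ d → Fill0 d' → d' = d) ∧
    ¬ ∃ i : Fin (7 + 1), (∀ j k : Fin (7 + 1), j ≤ k → k ≤ i → d j ≤ d k) ∧
    (∀ j k : Fin (7 + 1), i ≤ j → j ≤ k → d k ≤ d j) := by
  obtain ⟨d, h1, h2, h3, h4, h5, h6⟩ := exists_min
  refine ⟨d, h1, h5, h6, ?_⟩
  have hd4 : d 4 ≤ 4 := h4 4
  have hf := (fill0_iff d).1 h5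
  have hd3 : ¬ d 3 ≤ 4 := fun h => not_fill_one (ext8 d) h2 h3 h hd4 hf
  have hd5 : ¬ d 5 ≤ 4 := fun h => not_fill_two (ext8 d) h2 h3 hd4 h hf
  rintro ⟨i, hi1, hi2⟩
  by_cases hi : i ≤ 4
  · have := hi2 4 5 hi (by decide)
    omega
  · have := hi1 3 4 (by decide) (le_of_lt (not_le.1 hi))
    omega

end Pool.U157.NN
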