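import Pool.Agent.U157.NN.Fill

set_option autoImplicit false

namespace Pool.U157.NN

open MvPolynomial Finset

/-- more polynomials than variables satisfy a relation -/
theorem exists_rel {σ : Type} [Fintype σ] (hσ : Fintype.card σ < 65)
    (R : Fin 65 → MvPolynomial σ ℂ) :
    ∃ Q : MvPolynomial (Fin 65) ℂ, Q ≠ 0 ∧
      ∀ θ : σ → ℂ, eval (fun s => eval θ (R s)) Q = 0 := by
  have h : ¬ AlgebraicIndependent ℂ R := by
    intro h
    have h1 := h.cardinalMk_le_trdeg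
    rw [MvPolynomial.trdeg_of_isDomain] at h1
    simp only [Cardinal.mk_fintype, Fintype.card_fin, Cardinal.lift_natCast] at h1
    have h2 : (65 : ℕ) ≤ Fintype.card σ := by exact_mod_cast h1
    omega
  rw [algebraicIndependent_iff] at h
  push Not at h
  obtain ⟨Q, h1, h2⟩ := h
  refine ⟨Q, h2, fun θ => ?_⟩
  have h3 : eval θ (aeval R Q) = eval (fun s => eval θ (R s)) Q := by
    rw [← MvPolynomial.bind₁, MvPolynomial.eval, MvPolynomial.eval₂Hom_bind₁]
    rfl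
  rw [← h3, h1, map_zero]

theorem nv_shift {R : Type*} [CommSemiring R] (e : ℕ → ℕ) (W : ℕ → ℕ → ℕ → R) (x : ℕ → R)
    (k0 : ℕ) (hk : k0 ≠ 0) (m a : ℕ) :
    nv e W x (k0 + (m + 1)) a =
      nv (fun k => e (k0 + k)) (fun k => W (k0 + k)) (fun b => nv e W x k0 b ^ 2) (m + 1) a := by
  induction m generalizing a with
  | zero =>
    have h : k0 + (0 + 1) = k0 + 1 := rfl
    rw [h, nv_succ, nv_succ]
    refine Finset.sum_congr rfl fun b _ => ?_
    rw [nv_zero]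
    simp [ex, hk]
  | succ m ih =>
    have h : k0 + (m + 1 + 1) = (k0 + (m + 1)) + 1 := rfl
    rw [h, nv_succ, nv_succ]
    refine Finset.sum_congr rfl fun b _ => ?_
    rw [ih]
    have h1 : ex (k0 + (m + 1)) = ex (m + 1) := by simp [ex]
    rw [h1]

theorem nv_congr_x {R : Type*} [CommSemiring R] (e : ℕ → ℕ) (W : ℕ → ℕ → ℕ → R) (x x' : ℕ → R)
    (h : ∀ b < e 0, x b = x' b) (m a : ℕ) : nv e W x (m + 1) a = nv e W x' (m + 1) a := by
  induction m generalizing a with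
  | zero =>
    rw [nv_succ, nv_succ]
    refine Finset.sum_congr rfl fun b hb => ?_
    rw [nv_zero, nv_zero, h b (Finset.mem_range.1 hb)]
  | succ m ih =>
    rw [nv_succ, nv_succ]
    refine Finset.sum_congr rfl fun b _ => ?_
    rw [ih]

theorem nv_hom' {σ : Type} (e : ℕ → ℕ) (W : ℕ → ℕ → ℕ → ℂ) (x : ℕ → MvPolynomial σ ℂ)
    (hx : ∀ b, (x b).IsHomogeneous 1) (k a : ℕ) :
    (nv e (fun k a b => (C (W k a b) : MvPolynomial σ ℂ)) x k a).IsHomogeneous (dg k) := by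
  induction k generalizing a with
  | zero => exact hx _
  | succ k ih =>
    rw [nv_succ]
    refine IsHomogeneous.sum _ _ _ fun b _ => ?_
    have h := (isHomogeneous_C σ (W k a b)).mul ((ih b).pow (ex k))
    simpa [dg] using h

/-- the degree `n` exponents in four variables -/
abbrev Tn (n : ℕ) : Type := ((univ : Finset (Fin 4)).finsuppAntidiag n : Finset (Fin 4 →₀ ℕ))

theorem card_Tn (n : ℕ) : Fintype.card (Tn n) = (4 + n - 1).choose n := by
  rw [Fintype.card_coe, Finset.card_finsuppAntidiag_nat_eq_choose]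
  simp

theorem hom_expand {n : ℕ} {F : MvPolynomial (Fin 4) ℂ} (hF : F.IsHomogeneous n)
    (y : Fin 4 → ℂ) :
    eval y F = ∑ m : Tn n, coeff m.1 F * ∏ i, y i ^ m.1 i := by
  rw [MvPolynomial.eval_eq']
  rw [Finset.sum_coe_sort ((univ : Finset (Fin 4)).finsuppAntidiag n)
    (fun m => coeff m F * ∏ i, y i ^ m i)]
  refine Finset.sum_subset ?_ ?_
  · intro m hm
    rw [Finset.mem_finsuppAntidiag]
    refine ⟨?_, Finset.subset_univ _⟩
    have h1 := hF (MvPolynomial.mem_support_iff.1 hm)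
    rw [← h1]
    have h2 : (Finsupp.weight 1) m = m.degree := by
      rw [Finsupp.degree_eq_weight_one]; rfl
    rw [h2, Finsupp.degree_eq_sum]
  · intro m _ hm
    rw [MvPolynomial.notMem_support_iff.1 hm, zero_mul]

/-- the upper part of a network whose layer `k0` has at most four neurons -/
theorem top_expand (e : ℕ → ℕ) (W : ℕ → ℕ → ℕ → ℂ) (k0 m : ℕ) (hk : k0 ≠ 0)
    (he : e k0 ≤ 4) : ∃ φ : Tn (dg (m + 1)) → ℂ, ∀ x : ℕ → ℂ,
      nv e W x (k0 + (m + 1)) 0 =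
        ∑ t : Tn (dg (m + 1)), φ t * ∏ i : Fin 4, (nv e W x k0 i ^ 2) ^ t.1 i := by
  set xx : ℕ → MvPolynomial (Fin 4) ℂ := fun b => if h : b < 4 then X ⟨b, h⟩ else 0 with hxx
  set F : MvPolynomial (Fin 4) ℂ :=
    nv (fun k => e (k0 + k)) (fun k a b => C (W (k0 + k) a b)) xx (m + 1) 0 with hF
  have hhom : F.IsHomogeneous (dg (m + 1)) := by
    apply nv_hom' (fun k => e (k0 + k)) (fun k => W (k0 + k)) xx
    intro b
    rw [hxx]
    simp only
    split_ifs with h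
    · exact isHomogeneous_X _ _
    · exact isHomogeneous_zero _ _ _
  refine ⟨fun t => coeff t.1 F, fun x => ?_⟩
  have h1 := hom_expand hhom (fun i : Fin 4 => nv e W x k0 i ^ 2)
  rw [← h1, nv_shift e W x k0 hk, hF, nv_map]
  simp only [eval_C]
  refine nv_congr_x _ _ _ _ ?_ _ _
  intro b hb
  have hb' : b < 4 := lt_of_lt_of_le hb he
  rw [hxx]
  simp only
  rw [dif_pos hb', eval_X]

/-- one layer with at most four inputs -/
theorem layer4 (e : ℕ → ℕ) (W : ℕ → ℕ → ℕ → ℂ) (k0 : ℕ) (hk : k0 ≠ 0) (he : e k0 ≤ 4) :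
    ∃ B : Fin 4 → Fin 4 → ℂ, ∀ x : ℕ → ℂ, ∀ a : Fin 4,
      nv e W x (k0 + 1) a = ∑ b : Fin 4, B a b * nv e W x k0 b ^ 2 := by
  refine ⟨fun a b => if (b : ℕ) < e k0 then W k0 a b else 0, fun x a => ?_⟩
  rw [nv_succ]
  rw [← Finset.sum_range (fun b => (if b < e k0 then W k0 a b else 0) * nv e W x k0 b ^ 2)]
  have h1 : range (e k0) ⊆ range 4 := by
    intro b hb
    rw [Finset.mem_range] at hb ⊢
    omega
  have h2 : ex k0 = 2 := by simp [ex, hk]
  rw [h2, ← Finset.sum_subset h1]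
  · refine Finset.sum_congr rfl fun b hb => ?_
    rw [if_pos (Finset.mem_range.1 hb)]
  · intro b _ hb
    rw [Finset.mem_range] at hb
    rw [if_neg hb, zero_mul]

/-- the lower part of a network with two inputs consists of binary forms -/
theorem bottom (e : ℕ → ℕ) (h0 : e 0 = 2) (W : ℕ → ℕ → ℕ → ℂ) (k N : ℕ)
    (hN : dg (k + 1) + 1 = N) :
    ∃ H : Fin 4 → Fin N → ℂ, ∀ s : ℂ, ∀ a : Fin 4,
      nv e W (pt s) (k + 1) a = ∑ l : Fin N, H a l * s ^ (l : ℕ) := by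
  subst hN
  refine ⟨fun a l => coeff (mon (dg (k + 1)) l)
    (nv e (fun k a b => (C (W k a b) : MvPolynomial ℕ ℂ)) (fun b => X b) (k + 1) a),
    fun s a => ?_⟩
  have h := eval_pt (nv_hom e W (k + 1) a) (nv_supp e h0.le W k a) s
  rw [nv_map] at h
  simp only [eval_C, eval_X] at h
  rw [h, ← Finset.sum_range (fun l => coeff (mon (dg (k + 1)) l)
    (nv e (fun k a b => (C (W k a b) : MvPolynomial ℕ ℂ)) (fun b => X b) (k + 1) a) * s ^ l)]

/-! ### Second obstruction: layers four and five have at most four neurons -/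

abbrev S2 : Type := Tn 2 ⊕ ((Fin 4 × Fin 4) ⊕ (Fin 4 × Fin 9))

theorem card_S2 : Fintype.card S2 < 65 := by
  rw [Fintype.card_sum, Fintype.card_sum, card_Tn]
  simp only [Fintype.card_prod, Fintype.card_fin]
  decide

noncomputable def R2 (s : Fin 65) : MvPolynomial S2 ℂ :=
  ∑ t : Tn 2, X (Sum.inl t) * ∏ i : Fin 4,
    ((∑ b : Fin 4, X (Sum.inr (Sum.inl (i, b))) *
      (∑ l : Fin 9, X (Sum.inr (Sum.inr (b, l))) * C ((((s : ℕ) : ℂ)) ^ (l : ℕ))) ^ 2) ^ 2) ^ t.1 i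

theorem not_fill_two (e : ℕ → ℕ) (h0 : e 0 = 2) (h7 : e 7 = 1) (h4 : e 4 ≤ 4) (h5 : e 5 ≤ 4) :
    ¬ Fill e := by
  obtain ⟨Q, hQ, hQ'⟩ := exists_rel card_S2 R2
  refine not_fill e h0 h7 Q hQ fun W => ?_
  obtain ⟨φ, hφ⟩ := top_expand e W 5 1 (by norm_num) h5
  obtain ⟨B, hB⟩ := layer4 e W 4 (by norm_num) h4
  obtain ⟨H, hH⟩ := bottom e h0 W 3 9 rfl
  have hd : dg (1 + 1) = 2 := rfl
  set θ : S2 → ℂ := Sum.elim φ (Sum.elim (fun p => B p.1 p.2) (fun p => H p.1 p.2)) with hθ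
  have h := hQ' θ
  rw [← h]
  congr 2
  funext s
  have e1 : nv e W (pt ((s : ℕ) : ℂ)) 7 0 = _ := hφ (pt ((s : ℕ) : ℂ))
  rw [e1]
  unfold R2
  simp only [map_sum, map_mul, map_prod, map_pow, eval_X, eval_C]
  refine Finset.sum_congr rfl fun t _ => ?_
  refine congrArg₂ (· * ·) rfl ?_
  refine Finset.prod_congr rfl fun i _ => ?_
  refine congrArg (fun z => (z ^ 2) ^ t.1 i) ?_
  have e2 : nv e W (pt ((s : ℕ) : ℂ)) 5 i = _ := hB (pt ((s : ℕ) : ℂ)) i
  rw [e2]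
  refine Finset.sum_congr rfl fun b _ => ?_
  refine congrArg₂ (· * ·) rfl ?_
  refine congrArg (fun z => z ^ 2) ?_
  have e3 : nv e W (pt ((s : ℕ) : ℂ)) 4 b = _ := hH ((s : ℕ) : ℂ) b
  rw [e3]
  rfl

end Pool.U157.NN
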