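import Pool.Agent.U157.NN.Net

set_option autoImplicit false

namespace Pool.U157.NN

open MvPolynomial Finset

/-- the filling property for seven layers, quadratic activation, in terms of `nv` -/
def Fill (e : ℕ → ℕ) : Prop :=
  ∀ P : MvPolynomial (ℕ × (ℕ →₀ ℕ)) ℂ,
    (∀ W : ℕ → ℕ → ℕ → ℂ,
      eval (fun p : ℕ × (ℕ →₀ ℕ) => coeff p.2
        (nv e (fun k a b => (C (W k a b) : MvPolynomial ℕ ℂ)) (fun b => X b) 7 p.1)) P = 0) →
    ∀ c : ℕ × (ℕ →₀ ℕ) → ℂ,
      (∀ p : ℕ × (ℕ →₀ ℕ), c p ≠ 0 →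
        p.1 < e 7 ∧ (∑ b ∈ p.2.support, p.2 b) = 64 ∧ ∀ b ∈ p.2.support, b < e 0) →
      eval c P = 0

theorem nv_congr {R : Type*} [CommSemiring R] (e : ℕ → ℕ) (W W' : ℕ → ℕ → ℕ → R) (x : ℕ → R)
    (n : ℕ) (h : ∀ k < n, ∀ a b, W k a b = W' k a b) (a : ℕ) :
    nv e W x n a = nv e W' x n a := by
  induction n generalizing a with
  | zero => rfl
  | succ n ih =>
    rw [nv_succ, nv_succ]
    refine Finset.sum_congr rfl fun b _ => ?_
    rw [h n (Nat.lt_succ_self n), ih (fun k hk => h k (hk.trans (Nat.lt_succ_self n)))]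

/-- the Vandermonde matrix of the points `0, ..., 64` -/
noncomputable def V : Matrix (Fin 65) (Fin 65) ℂ := Matrix.vandermonde (fun s : Fin 65 => ((s : ℕ) : ℂ))

theorem V_apply (s j : Fin 65) : V s j = ((s : ℕ) : ℂ) ^ (j : ℕ) := rfl

theorem V_unit : IsUnit V.det := by
  rw [isUnit_iff_ne_zero]
  unfold V
  rw [Matrix.det_vandermonde_ne_zero_iff]
  intro i j h
  have h' : ((i : ℕ) : ℂ) = ((j : ℕ) : ℂ) := h
  exact Fin.ext (Nat.cast_injective h')

/-- the coefficient vector in the ambient space with given entries -/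
noncomputable def kap (z : Fin 65 → ℂ) (p : ℕ × (ℕ →₀ ℕ)) : ℂ :=
  if p.1 = 0 ∧ p.2 = mon 64 (p.2 0) then (if h : p.2 0 < 65 then z ⟨p.2 0, h⟩ else 0) else 0

theorem kap_mon (z : Fin 65 → ℂ) (j : Fin 65) : kap z (0, mon 64 j) = z j := by
  unfold kap
  simp [mon_zero]

theorem mon_sum {j : ℕ} (hj : j < 65) : (∑ b ∈ (mon 64 j).support, mon 64 j b) = 64 := by
  have hsub : (mon 64 j).support ⊆ ({0, 1} : Finset ℕ) := by
    intro b hb
    by_contra hb'
    simp only [Finset.mem_insert, Finset.mem_singleton, not_or] at hb'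
    have : mon 64 j b = 0 := by simp [mon, Ne.symm hb'.1, Ne.symm hb'.2]
    exact (Finsupp.mem_support_iff.1 hb) this
  rw [Finset.sum_subset hsub]
  · rw [Finset.sum_pair (by norm_num), mon_zero, mon_one]
    omega
  · intro x _ hx
    simpa using hx

theorem mon_mem {n j b : ℕ} (hb : b ∈ (mon n j).support) : b < 2 := by
  by_contra hb'
  have h0 : b ≠ 0 := by omega
  have h1 : b ≠ 1 := by omega
  have : mon n j b = 0 := by simp [mon, Ne.symm h0, Ne.symm h1]
  exact (Finsupp.mem_support_iff.1 hb) this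

theorem kap_cond {e : ℕ → ℕ} (h0 : e 0 = 2) (h7 : e 7 = 1) (z : Fin 65 → ℂ)
    (p : ℕ × (ℕ →₀ ℕ)) (hp : kap z p ≠ 0) :
    p.1 < e 7 ∧ (∑ b ∈ p.2.support, p.2 b) = 64 ∧ ∀ b ∈ p.2.support, b < e 0 := by
  unfold kap at hp
  split_ifs at hp with h1 h2
  · obtain ⟨ha, hb⟩ := h1
    refine ⟨by rw [ha, h7]; norm_num, ?_, ?_⟩
    · rw [hb]; exact mon_sum h2
    · intro b hbm
      rw [hb] at hbm
      rw [h0]
      exact mon_mem hbm
  · exact absurd rfl hp
  · exact absurd rfl hp

theorem val_eq (e : ℕ → ℕ) (h0 : e 0 = 2) (W : ℕ → ℕ → ℕ → ℂ) (s : ℂ) (a : ℕ) :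
    nv e W (pt s) 7 a = ∑ j ∈ range 65,
      coeff (mon 64 j)
        (nv e (fun k a b => (C (W k a b) : MvPolynomial ℕ ℂ)) (fun b => X b) 7 a) * s ^ j := by
  have h := eval_pt (nv_hom e W 7 a) (nv_supp e h0.le W 6 a) s
  rw [nv_map] at h
  simp only [eval_C, eval_X] at h
  rw [h]
  rfl

theorem not_fill (e : ℕ → ℕ) (h0 : e 0 = 2) (h7 : e 7 = 1) (Q : MvPolynomial (Fin 65) ℂ)
    (hQ : Q ≠ 0)
    (h : ∀ W : ℕ → ℕ → ℕ → ℂ, eval (fun s : Fin 65 => nv e W (pt ((s : ℕ) : ℂ)) 7 0) Q = 0) :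
    ¬ Fill e := by
  intro hF
  apply hQ
  set P : MvPolynomial (ℕ × (ℕ →₀ ℕ)) ℂ :=
    bind₁ (fun s : Fin 65 => ∑ j ∈ range 65, C (((s : ℕ) : ℂ) ^ j) *
      (X ((0 : ℕ), mon 64 j) : MvPolynomial (ℕ × (ℕ →₀ ℕ)) ℂ)) Q with hP
  have hev : ∀ c : ℕ × (ℕ →₀ ℕ) → ℂ, eval c P =
      eval (fun s : Fin 65 => ∑ j ∈ range 65, c (0, mon 64 j) * ((s : ℕ) : ℂ) ^ j) Q := by
    intro c
    rw [hP]
    simp only [MvPolynomial.eval, MvPolynomial.eval₂Hom_bind₁]
    congr 2
    funext s
    simp only [map_sum, map_mul, eval₂Hom_C, eval₂Hom_X', RingHom.id_apply, mul_comm]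
  have hvan := hF P (by
    intro W
    rw [hev]
    have := h W
    rw [← this]
    congr 2
    funext s
    rw [val_eq e h0])
  apply MvPolynomial.funext
  intro y
  rw [map_zero]
  have h1 := hvan (kap (V⁻¹.mulVec y)) (kap_cond h0 h7 _)
  rw [hev] at h1
  rw [← h1]
  congr 2
  funext s
  rw [Finset.sum_range (fun j => kap (V⁻¹.mulVec y) (0, mon 64 j) * ((s : ℕ) : ℂ) ^ j)]
  have h2 : y s = (V.mulVec (V⁻¹.mulVec y)) s := by
    rw [Matrix.mulVec_mulVec, Matrix.mul_nonsing_inv V V_unit, Matrix.one_mulVec]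
  rw [h2]
  simp only [Matrix.mulVec, dotProduct]
  refine Finset.sum_congr rfl fun j _ => ?_
  rw [kap_mon, V_apply, mul_comm]
  rfl

theorem fill_of (e : ℕ → ℕ) (h0 : e 0 = 2) (h7 : e 7 = 1)
    (h : ∀ Q : MvPolynomial (Fin 65) ℂ,
      (∀ W : ℕ → ℕ → ℕ → ℂ, eval (fun s : Fin 65 => nv e W (pt ((s : ℕ) : ℂ)) 7 0) Q = 0) →
      Q = 0) : Fill e := by
  classical
  intro P hP c hc
  set z : Fin 65 → ℂ := fun j => c (0, mon 64 j) with hz
  have hck : c = kap z := by
    funext p
    obtain ⟨a, m⟩ := p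
    by_cases hcp : c (a, m) = 0
    · unfold kap
      split_ifs with h1 h2
      · obtain ⟨ha, hb⟩ := h1
        simp only at ha hb h2 ⊢
        rw [hz]
        simp only
        rw [← hb, ← ha]
      · exact hcp
      · exact hcp
    · obtain ⟨h1, h2, h3⟩ := hc (a, m) hcp
      simp only at h1 h2 h3
      have ha : a = 0 := by omega
      rw [h0] at h3
      have hsub : m.support ⊆ ({0, 1} : Finset ℕ) := by
        intro b hb
        have := h3 b hb
        interval_cases b <;> simp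
      have hd : m 0 + m 1 = 64 := by
        rw [← h2, Finset.sum_subset hsub]
        · rw [Finset.sum_pair (by norm_num)]
        · intro x _ hx
          simpa using hx
      have hm : m = mon 64 (m 0) := by
        ext b
        by_cases hb0 : b = 0
        · subst hb0; rw [mon_zero]
        by_cases hb1 : b = 1
        · subst hb1; rw [mon_one]; omega
        · have hb : b ∉ m.support := by
            intro hb
            have := h3 b hb
            omega
          rw [Finsupp.notMem_support_iff.1 hb]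
          simp [mon, Ne.symm hb0, Ne.symm hb1]
      unfold kap
      rw [if_pos ⟨ha, hm⟩, dif_pos (by show m 0 < 65; omega)]
      rw [hz]
      simp only
      rw [← hm, ha]
  set Q : MvPolynomial (Fin 65) ℂ :=
    bind₁ (fun p : ℕ × (ℕ →₀ ℕ) =>
      if p.1 = 0 ∧ p.2 = mon 64 (p.2 0) then
        (if h : p.2 0 < 65 then ∑ s : Fin 65, C (V⁻¹ ⟨p.2 0, h⟩ s) *
          (X s : MvPolynomial (Fin 65) ℂ) else 0) else 0) P with hQdef
  have hev : ∀ y : Fin 65 → ℂ, eval y Q = eval (kap (V⁻¹.mulVec y)) P := by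
    intro y
    rw [hQdef]
    simp only [MvPolynomial.eval, MvPolynomial.eval₂Hom_bind₁]
    congr 2
    funext p
    unfold kap
    split_ifs with h1 h2
    · simp only [map_sum, map_mul, eval₂Hom_C, eval₂Hom_X', RingHom.id_apply]
      rfl
    · simp
    · simp
  have hQ0 : Q = 0 := by
    apply h
    intro W
    rw [hev]
    set W' : ℕ → ℕ → ℕ → ℂ := fun k a b => if k = 6 ∧ a ≠ 0 then 0 else W k a b with hW'
    rw [← hP W']
    congr 2
    funext p
    obtain ⟨a, m⟩ := p
    simp only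
    by_cases ha : a = 0
    · subst ha
      have hval : ∀ s : ℂ, nv e W' (pt s) 7 0 = nv e W (pt s) 7 0 := by
        intro s
        rw [nv_succ, nv_succ]
        refine Finset.sum_congr rfl fun b _ => ?_
        rw [nv_congr e W' W (pt s) 6 (by
          intro k hk a b
          rw [hW']
          simp only
          rw [if_neg (by omega)])]
        rw [hW']
        simp
      set f := nv e (fun k a b => (C (W' k a b) : MvPolynomial ℕ ℂ)) (fun b => X b) 7 0 with hf
      have hz' : V⁻¹.mulVec (fun s : Fin 65 => nv e W (pt ((s : ℕ) : ℂ)) 7 0) =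
          fun j : Fin 65 => coeff (mon 64 j) f := by
        have h1 : (fun s : Fin 65 => nv e W (pt ((s : ℕ) : ℂ)) 7 0) =
            V.mulVec (fun j : Fin 65 => coeff (mon 64 j) f) := by
          funext s
          rw [← hval, val_eq e h0 W', ← hf, Finset.sum_range (fun j => coeff (mon 64 j) f * ((s : ℕ) : ℂ) ^ j)]
          simp only [Matrix.mulVec, dotProduct]
          refine Finset.sum_congr rfl fun j _ => ?_
          rw [V_apply, mul_comm]
        rw [h1, Matrix.mulVec_mulVec, Matrix.nonsing_inv_mul V V_unit, Matrix.one_mulVec]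
      rw [hz']
      unfold kap
      by_cases hm : coeff m f = 0
      · rw [hm]
        split_ifs with h1 h2
        · simp only at h1 h2 ⊢
          rw [← h1.2, hm]
        · rfl
        · rfl
      · have h2 := coeff_ne (nv_hom e W' 7 0) (nv_supp e h0.le W' 6 0) hm
        have h3 : m 0 < 65 := Nat.lt_succ_of_le h2.2
        rw [if_pos ⟨rfl, h2.1⟩, dif_pos h3]
        simp only
        congr 1
        exact h2.1.symm
    · have hzero : nv e (fun k a b => (C (W' k a b) : MvPolynomial ℕ ℂ)) (fun b => X b) 7 a = 0 := by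
        rw [nv_succ]
        refine Finset.sum_eq_zero fun b _ => ?_
        rw [hW']
        simp only
        rw [if_pos ⟨trivial, ha⟩, C_0, zero_mul]
      rw [hzero, coeff_zero]
      unfold kap
      rw [if_neg]
      rintro ⟨h1, _⟩
      exact ha h1
  rw [hck]
  have h2 : z = V⁻¹.mulVec (V.mulVec z) := by
    rw [Matrix.mulVec_mulVec, Matrix.nonsing_inv_mul V V_unit, Matrix.one_mulVec]
  rw [h2, ← hev, hQ0, map_zero]

end Pool.U157.NN
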