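import Pool.Agent.U157.NN.Fill

set_option autoImplicit false

namespace Pool.U157.NN

open MvPolynomial Finset

/-- adjoint (backward) values, `bp j` belongs to layer `7 - j` -/
def bp {R : Type*} [CommSemiring R] (e : ℕ → ℕ) (W : ℕ → ℕ → ℕ → R) (x : ℕ → R) : ℕ → ℕ → R
  | 0, a => if a = 0 then 1 else 0
  | j + 1, b => ∑ a ∈ range (e (7 - j)), bp e W x j a * W (6 - j) a b * (2 * nv e W x (6 - j) b)

theorem bp_zero {R : Type*} [CommSemiring R] (e : ℕ → ℕ) (W : ℕ → ℕ → ℕ → R) (x : ℕ → R) (a : ℕ) :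
    bp e W x 0 a = if a = 0 then 1 else 0 := rfl

theorem bp_succ {R : Type*} [CommSemiring R] (e : ℕ → ℕ) (W : ℕ → ℕ → ℕ → R) (x : ℕ → R)
    (j b : ℕ) :
    bp e W x (j + 1) b =
      ∑ a ∈ range (e (7 - j)), bp e W x j a * W (6 - j) a b * (2 * nv e W x (6 - j) b) := rfl

theorem bp_map {R S : Type*} [CommSemiring R] [CommSemiring S] (φ : R →+* S) (e : ℕ → ℕ)
    (W : ℕ → ℕ → ℕ → R) (x : ℕ → R) (k a : ℕ) :
    φ (bp e W x k a) = bp e (fun k a b => φ (W k a b)) (fun b => φ (x b)) k a := by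
  induction k generalizing a with
  | zero => rw [bp_zero, bp_zero]; split_ifs <;> simp
  | succ k ih =>
    rw [bp_succ, bp_succ, map_sum]
    refine Finset.sum_congr rfl fun b _ => ?_
    rw [map_mul, map_mul, map_mul, ih, nv_map, map_ofNat]

section Deriv

variable (e : ℕ → ℕ) (W0 : ℕ → ℕ → ℕ → ℂ) (pos : Fin 65 → ℕ × ℕ × ℕ)

/-- the coordinate functional of the perturbed weights -/
noncomputable def pr (k a b : ℕ) : (Fin 65 → ℂ) →L[ℂ] ℂ :=
  ∑ j : Fin 65, if pos j = (k, a, b) then ContinuousLinearMap.proj j else 0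

/-- the perturbed weights -/
noncomputable def Wt (t : Fin 65 → ℂ) (k a b : ℕ) : ℂ := W0 k a b + pr pos k a b t

theorem pr_apply (k a b : ℕ) (t : Fin 65 → ℂ) :
    pr pos k a b t = ∑ j : Fin 65, if pos j = (k, a, b) then t j else 0 := by
  unfold pr
  rw [_root_.sum_apply]
  refine Finset.sum_congr rfl fun j _ => ?_
  split_ifs <;> simp

theorem Wt_zero (k a b : ℕ) : Wt W0 pos 0 k a b = W0 k a b := by
  unfold Wt
  rw [map_zero, add_zero]

theorem Wt_fun_zero : Wt W0 pos 0 = W0 := by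
  funext k a b
  exact Wt_zero W0 pos k a b

variable (x : ℕ → ℂ)

/-- derivative of the neurons -/
noncomputable def Dn : ℕ → ℕ → ((Fin 65 → ℂ) →L[ℂ] ℂ)
  | 0, _ => 0
  | k + 1, a => ∑ b ∈ range (e k),
      ((nv e W0 x k b ^ ex k) • pr pos k a b +
        (if k = 0 then W0 k a b else W0 k a b * (2 * nv e W0 x k b)) • Dn k b)

theorem Dn_succ (k a : ℕ) : Dn e W0 pos x (k + 1) a = ∑ b ∈ range (e k),
      ((nv e W0 x k b ^ ex k) • pr pos k a b +
        (if k = 0 then W0 k a b else W0 k a b * (2 * nv e W0 x k b)) • Dn e W0 pos x k b) := by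
  rw [Dn]

theorem hasW (k a b : ℕ) :
    HasStrictFDerivAt (fun t => Wt W0 pos t k a b) (pr pos k a b) 0 :=
  (ContinuousLinearMap.hasStrictFDerivAt (pr pos k a b)).const_add (W0 k a b)

theorem hasD_one {L1 L2 : (Fin 65 → ℂ) →L[ℂ] ℂ} {f g : (Fin 65 → ℂ) → ℂ} {w v : ℂ}
    (hf : HasStrictFDerivAt f L1 0) (hg : HasStrictFDerivAt g L2 0) (hw : f 0 = w) (hv : g 0 = v) :
    HasStrictFDerivAt (fun t => f t * g t) (v • L1 + w • L2) 0 := by
  have h := hf.fun_mul hg
  rw [hw, hv] at h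
  rw [add_comm]
  exact h

theorem hasD_two {L1 L2 : (Fin 65 → ℂ) →L[ℂ] ℂ} {f g : (Fin 65 → ℂ) → ℂ} {w v : ℂ}
    (hf : HasStrictFDerivAt f L1 0) (hg : HasStrictFDerivAt g L2 0) (hw : f 0 = w) (hv : g 0 = v) :
    HasStrictFDerivAt (fun t => f t * g t ^ 2) (v ^ 2 • L1 + (w * (2 * v)) • L2) 0 := by
  have h := hf.fun_mul (hg.fun_mul hg)
  rw [hw, hv] at h
  have heq : (v ^ 2) • L1 + (w * (2 * v)) • L2 = w • (v • L2 + v • L2) + (v * v) • L1 := by
    ext t
    simp only [add_apply, smul_apply, smul_eq_mul]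
    ring
  rw [heq]
  simp only [pow_two]
  exact h

theorem hasD (k a : ℕ) :
    HasStrictFDerivAt (fun t => nv e (Wt W0 pos t) x k a) (Dn e W0 pos x k a) 0 := by
  induction k generalizing a with
  | zero =>
    exact hasStrictFDerivAt_const _ _
  | succ k ih =>
    have hfun : (fun t => nv e (Wt W0 pos t) x (k + 1) a) =
        fun t => ∑ b ∈ range (e k), Wt W0 pos t k a b * nv e (Wt W0 pos t) x k b ^ ex k := by
      funext t
      rw [nv_succ]
    rw [hfun, Dn_succ]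
    refine HasStrictFDerivAt.fun_sum fun b _ => ?_
    have hv0 : nv e (Wt W0 pos 0) x k b = nv e W0 x k b := by rw [Wt_fun_zero]
    by_cases hk : k = 0
    · have hex : ex k = 1 := by simp [ex, hk]
      rw [hex]
      simp only [pow_one]
      rw [if_pos hk]
      exact hasD_one (hasW W0 pos k a b) (ih b) (Wt_zero W0 pos k a b) hv0
    · have hex : ex k = 2 := by simp [ex, hk]
      rw [hex]
      rw [if_neg hk]
      exact hasD_two (hasW W0 pos k a b) (ih b) (Wt_zero W0 pos k a b) hv0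

variable (p : ℕ → ℕ → ℕ → ℂ)

/-- derivative of the neurons in the direction `p` -/
noncomputable def dn : ℕ → ℕ → ℂ
  | 0, _ => 0
  | k + 1, a => ∑ b ∈ range (e k),
      ((nv e W0 x k b ^ ex k) * p k a b +
        (if k = 0 then W0 k a b else W0 k a b * (2 * nv e W0 x k b)) * dn k b)

theorem dn_succ (k a : ℕ) : dn e W0 x p (k + 1) a = ∑ b ∈ range (e k),
      ((nv e W0 x k b ^ ex k) * p k a b +
        (if k = 0 then W0 k a b else W0 k a b * (2 * nv e W0 x k b)) * dn e W0 x p k b) := rfl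

theorem Dn_eq_dn (t : Fin 65 → ℂ) (k a : ℕ) :
    Dn e W0 pos x k a t = dn e W0 x (fun k a b => pr pos k a b t) k a := by
  induction k generalizing a with
  | zero => rfl
  | succ k ih =>
    rw [Dn_succ, dn_succ, _root_.sum_apply]
    refine Finset.sum_congr rfl fun b _ => ?_
    rw [add_apply, smul_apply, smul_apply, ih]
    rfl

/-- one step of the backward recursion -/
theorem back_step (j : ℕ) (hj : j ≤ 5) :
    ∑ a ∈ range (e (7 - j)), bp e W0 x j a * dn e W0 x p (7 - j) a =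
      ∑ b ∈ range (e (6 - j)), bp e W0 x (j + 1) b * dn e W0 x p (6 - j) b +
      ∑ a ∈ range (e (7 - j)), ∑ b ∈ range (e (6 - j)),
        (bp e W0 x j a * nv e W0 x (6 - j) b ^ ex (6 - j)) * p (6 - j) a b := by
  have h7 : 7 - j = (6 - j) + 1 := by omega
  have h6 : 6 - j ≠ 0 := by omega
  have h1 : ∀ a, dn e W0 x p (7 - j) a = ∑ b ∈ range (e (6 - j)),
      ((nv e W0 x (6 - j) b ^ ex (6 - j)) * p (6 - j) a b +
        (W0 (6 - j) a b * (2 * nv e W0 x (6 - j) b)) * dn e W0 x p (6 - j) b) := by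
    intro a
    rw [h7, dn_succ]
    simp only [if_neg h6]
  simp only [h1, Finset.mul_sum, mul_add, Finset.sum_add_distrib]
  rw [add_comm]
  refine congrArg₂ (· + ·) ?_ ?_
  · rw [Finset.sum_comm]
    refine Finset.sum_congr rfl fun b _ => ?_
    rw [bp_succ, Finset.sum_mul]
    refine Finset.sum_congr rfl fun a _ => ?_
    ring
  · refine Finset.sum_congr rfl fun b _ => Finset.sum_congr rfl fun a _ => ?_
    ring

theorem back_last :
    ∑ a ∈ range (e 1), bp e W0 x 6 a * dn e W0 x p 1 a =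
      ∑ a ∈ range (e 1), ∑ b ∈ range (e 0),
        (bp e W0 x 6 a * nv e W0 x 0 b ^ ex 0) * p 0 a b := by
  refine Finset.sum_congr rfl fun a _ => ?_
  rw [dn_succ, Finset.mul_sum]
  refine Finset.sum_congr rfl fun b _ => ?_
  have : dn e W0 x p 0 b = 0 := rfl
  rw [this, mul_zero, add_zero, mul_assoc]

theorem back_all (h7 : e 7 = 1) :
    dn e W0 x p 7 0 = ∑ k ∈ range 7, ∑ a ∈ range (e (k + 1)), ∑ b ∈ range (e k),
        (bp e W0 x (6 - k) a * nv e W0 x k b ^ ex k) * p k a b := by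
  have h0 : dn e W0 x p 7 0 = ∑ a ∈ range (e (7 - 0)), bp e W0 x 0 a * dn e W0 x p (7 - 0) a := by
    rw [Nat.sub_zero, h7, Finset.sum_range_one, bp_zero, if_pos rfl, one_mul]
  rw [h0, back_step e W0 x p 0 (by norm_num)]
  have s1 := back_step e W0 x p 1 (by norm_num)
  have s2 := back_step e W0 x p 2 (by norm_num)
  have s3 := back_step e W0 x p 3 (by norm_num)
  have s4 := back_step e W0 x p 4 (by norm_num)
  have s5 := back_step e W0 x p 5 (by norm_num)
  have s6 := back_last e W0 x p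
  norm_num only [zero_add, Nat.sub_zero] at s1 s2 s3 s4 s5 ⊢
  rw [s1, s2, s3, s4, s5, s6]
  simp only [Finset.sum_range_succ, Finset.sum_range_zero, zero_add]

/-- the Jacobian entry -/
noncomputable def Je (p : ℕ × ℕ × ℕ) : ℂ :=
  bp e W0 x (6 - p.1) p.2.1 * nv e W0 x p.1 p.2.2 ^ ex p.1

theorem Dn_apply (h7 : e 7 = 1)
    (hpos : ∀ j, (pos j).1 < 7 ∧ (pos j).2.1 < e ((pos j).1 + 1) ∧ (pos j).2.2 < e (pos j).1)
    (t : Fin 65 → ℂ) :
    Dn e W0 pos x 7 0 t = ∑ j : Fin 65, Je e W0 x (pos j) * t j := by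
  rw [Dn_eq_dn, back_all e W0 x _ h7]
  simp only [pr_apply, Finset.mul_sum]
  have h1 : ∀ k a : ℕ, ∑ b ∈ range (e k), ∑ j : Fin 65,
      (bp e W0 x (6 - k) a * nv e W0 x k b ^ ex k) * (if pos j = (k, a, b) then t j else 0) =
      ∑ j : Fin 65, ∑ b ∈ range (e k),
      (bp e W0 x (6 - k) a * nv e W0 x k b ^ ex k) * (if pos j = (k, a, b) then t j else 0) :=
    fun k a => Finset.sum_comm
  simp only [h1]
  have h2 : ∀ k : ℕ, ∑ a ∈ range (e (k + 1)), ∑ j : Fin 65, ∑ b ∈ range (e k),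
      (bp e W0 x (6 - k) a * nv e W0 x k b ^ ex k) * (if pos j = (k, a, b) then t j else 0) =
      ∑ j : Fin 65, ∑ a ∈ range (e (k + 1)), ∑ b ∈ range (e k),
      (bp e W0 x (6 - k) a * nv e W0 x k b ^ ex k) * (if pos j = (k, a, b) then t j else 0) :=
    fun k => Finset.sum_comm
  simp only [h2]
  rw [Finset.sum_comm]
  refine Finset.sum_congr rfl fun j _ => ?_
  obtain ⟨p1, p2, p3⟩ := hpos j
  rw [Finset.sum_eq_single (pos j).1]
  · rw [Finset.sum_eq_single (pos j).2.1]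
    · rw [Finset.sum_eq_single (pos j).2.2]
      · rw [if_pos rfl]
        rfl
      · intro b _ hb
        rw [if_neg, mul_zero]
        intro h
        apply hb
        rw [h]
      · intro h
        exact absurd (Finset.mem_range.2 p3) h
    · intro a _ ha
      refine Finset.sum_eq_zero fun b _ => ?_
      rw [if_neg, mul_zero]
      intro h
      apply ha
      rw [h]
    · intro h
      exact absurd (Finset.mem_range.2 p2) h
  · intro k _ hk
    refine Finset.sum_eq_zero fun a _ => Finset.sum_eq_zero fun b _ => ?_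
    rw [if_neg, mul_zero]
    intro h
    apply hk
    rw [h]
  · intro h
    exact absurd (Finset.mem_range.2 p1) h

end Deriv

/-- a polynomial vanishing near a point is zero -/
theorem zero_of_near (Q : MvPolynomial (Fin 65) ℂ) (y0 : Fin 65 → ℂ)
    (h : ∀ᶠ y in nhds y0, eval y Q = 0) : Q = 0 := by
  obtain ⟨ε, hε, hball⟩ := Metric.eventually_nhds_iff_ball.1 h
  apply MvPolynomial.funext_set (fun i => Metric.ball (y0 i) ε)
  · intro i
    exact infinite_of_mem_nhds (y0 i) (Metric.ball_mem_nhds _ hε)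
  · intro x hx
    rw [map_zero]
    apply hball
    rw [ball_pi _ hε]
    exact hx

theorem fill_of_jac (e : ℕ → ℕ) (h0 : e 0 = 2) (h7 : e 7 = 1) (W0 : ℕ → ℕ → ℕ → ℂ)
    (pos : Fin 65 → ℕ × ℕ × ℕ)
    (hpos : ∀ j, (pos j).1 < 7 ∧ (pos j).2.1 < e ((pos j).1 + 1) ∧ (pos j).2.2 < e (pos j).1)
    (hdet : (Matrix.of fun s j : Fin 65 => Je e W0 (pt ((s : ℕ) : ℂ)) (pos j)).det ≠ 0) :
    Fill e := by
  apply fill_of e h0 h7
  intro Q hQ
  set J : Matrix (Fin 65) (Fin 65) ℂ :=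
    Matrix.of fun s j : Fin 65 => Je e W0 (pt ((s : ℕ) : ℂ)) (pos j) with hJ
  set f : (Fin 65 → ℂ) → (Fin 65 → ℂ) :=
    fun t s => nv e (Wt W0 pos t) (pt ((s : ℕ) : ℂ)) 7 0 with hf
  set f' : (Fin 65 → ℂ) →L[ℂ] (Fin 65 → ℂ) :=
    ContinuousLinearMap.pi (fun s : Fin 65 => Dn e W0 pos (pt ((s : ℕ) : ℂ)) 7 0) with hf'
  have hd : HasStrictFDerivAt f f' 0 := by
    rw [hf']
    rw [hasStrictFDerivAt_pi]
    intro s
    exact hasD e W0 pos (pt ((s : ℕ) : ℂ)) 7 0
  have hunit : IsUnit J.det := isUnit_iff_ne_zero.2 hdet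
  have hsurj : f'.range = ⊤ := by
    rw [LinearMap.range_eq_top]
    intro y
    refine ⟨J⁻¹.mulVec y, ?_⟩
    have h1 : ∀ t, f' t = J.mulVec t := by
      intro t
      funext s
      rw [hf']
      simp only [ContinuousLinearMap.pi_apply]
      rw [Dn_apply e W0 pos _ h7 hpos]
      rfl
    show f' (J⁻¹.mulVec y) = y
    rw [h1, Matrix.mulVec_mulVec, Matrix.mul_nonsing_inv J hunit, Matrix.one_mulVec]
  have hmap := hd.map_nhds_eq_of_surj hsurj
  apply zero_of_near Q (f 0)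
  rw [← hmap, Filter.eventually_map]
  refine Filter.Eventually.of_forall fun t => ?_
  exact hQ (Wt W0 pos t)

end Pool.U157.NN
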