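import Mathlib

set_option autoImplicit false

namespace Pool.U157.NN

open MvPolynomial Finset

/-- exponent used when passing from layer `k` to layer `k+1` -/
def ex (k : ℕ) : ℕ := if k = 0 then 1 else 2

/-- the network with widths `e`, weights `W`, input `x`; values of layer `k` -/
def nv {R : Type*} [CommSemiring R] (e : ℕ → ℕ) (W : ℕ → ℕ → ℕ → R) (x : ℕ → R) : ℕ → ℕ → R
  | 0, a => x a
  | k + 1, a => ∑ b ∈ range (e k), W k a b * nv e W x k b ^ (ex k)

theorem nv_zero {R : Type*} [CommSemiring R] (e : ℕ → ℕ) (W : ℕ → ℕ → ℕ → R) (x : ℕ → R) (a : ℕ) :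
    nv e W x 0 a = x a := rfl

theorem nv_succ {R : Type*} [CommSemiring R] (e : ℕ → ℕ) (W : ℕ → ℕ → ℕ → R) (x : ℕ → R)
    (k a : ℕ) :
    nv e W x (k + 1) a = ∑ b ∈ range (e k), W k a b * nv e W x k b ^ (ex k) := rfl

theorem nv_map {R S : Type*} [CommSemiring R] [CommSemiring S] (φ : R →+* S) (e : ℕ → ℕ)
    (W : ℕ → ℕ → ℕ → R) (x : ℕ → R) (k a : ℕ) :
    φ (nv e W x k a) = nv e (fun k a b => φ (W k a b)) (fun b => φ (x b)) k a := by
  induction k generalizing a with
  | zero => rfl
  | succ k ih =>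
    rw [nv_succ, nv_succ, map_sum]
    refine Finset.sum_congr rfl fun b _ => ?_
    rw [map_mul, map_pow, ih]

/-- degrees of the layers -/
def dg : ℕ → ℕ
  | 0 => 1
  | k + 1 => dg k * ex k

theorem nv_hom (e : ℕ → ℕ) (W : ℕ → ℕ → ℕ → ℂ) (k a : ℕ) :
    (nv e (fun k a b => (C (W k a b) : MvPolynomial ℕ ℂ)) (fun b => X b) k a).IsHomogeneous
      (dg k) := by
  induction k generalizing a with
  | zero => exact isHomogeneous_X _ _
  | succ k ih =>
    rw [nv_succ]
    refine IsHomogeneous.sum _ _ _ fun b _ => ?_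
    have h := (isHomogeneous_C ℕ (W k a b)).mul ((ih b).pow (ex k))
    simpa [dg] using h

theorem nv_supp (e : ℕ → ℕ) (he : e 0 ≤ 2) (W : ℕ → ℕ → ℕ → ℂ) (k a : ℕ) :
    (nv e (fun k a b => (C (W k a b) : MvPolynomial ℕ ℂ)) (fun b => X b) (k + 1) a) ∈
      MvPolynomial.supported ℂ ({0, 1} : Set ℕ) := by
  induction k generalizing a with
  | zero =>
    rw [nv_succ]
    refine Subalgebra.sum_mem _ fun b hb => ?_
    refine Subalgebra.mul_mem _ (Subalgebra.algebraMap_mem _ _) (Subalgebra.pow_mem _ ?_ _)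
    rw [nv_zero]
    refine MvPolynomial.X_mem_supported.2 ?_
    have : b < 2 := lt_of_lt_of_le (Finset.mem_range.1 hb) he
    interval_cases b <;> simp
  | succ k ih =>
    rw [nv_succ]
    refine Subalgebra.sum_mem _ fun b _ => ?_
    exact Subalgebra.mul_mem _ (Subalgebra.algebraMap_mem _ _) (Subalgebra.pow_mem _ (ih b) _)

/-- the exponent `X0^j X1^(n-j)` -/
noncomputable def mon (n j : ℕ) : ℕ →₀ ℕ := Finsupp.single 0 j + Finsupp.single 1 (n - j)

theorem mon_zero (n j : ℕ) : mon n j 0 = j := by simp [mon]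

theorem mon_one (n j : ℕ) : mon n j 1 = n - j := by simp [mon]

/-- the evaluation point `(s, 1, 1, ...)` -/
def pt (s : ℂ) (b : ℕ) : ℂ := if b = 0 then s else 1

/-- a homogeneous form in `X0, X1` only has monomials `mon n j` -/
theorem coeff_ne {n : ℕ} {f : MvPolynomial ℕ ℂ} (hf : f.IsHomogeneous n)
    (hs : f ∈ MvPolynomial.supported ℂ ({0, 1} : Set ℕ)) {m : ℕ →₀ ℕ} (hm : coeff m f ≠ 0) :
    m = mon n (m 0) ∧ m 0 ≤ n := by
  have hsub : (m.support : Set ℕ) ⊆ {0, 1} := by
    have h1 := MvPolynomial.mem_supported.1 hs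
    intro b hb
    apply h1
    rw [Finset.mem_coe, MvPolynomial.mem_vars_iff_mem_support]
    exact ⟨m, by rwa [MvPolynomial.mem_support_iff], by simpa using hb⟩
  have hdeg : m.degree = n := by
    have := hf hm
    rw [Finsupp.degree_eq_weight_one]; exact this
  have hdeg2 : m.degree = m 0 + m 1 := by
    rw [Finsupp.degree_apply]
    have hsub' : m.support ⊆ ({0, 1} : Finset ℕ) := by
      intro b hb
      have := hsub hb
      simpa using this
    rw [Finset.sum_subset hsub']
    · simp
    · intro x _ hx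
      simpa using hx
  constructor
  · ext b
    by_cases h0 : b = 0
    · subst h0; rw [mon_zero]
    by_cases h1 : b = 1
    · subst h1; rw [mon_one]; omega
    · have hb : b ∉ m.support := by
        intro hb
        have := hsub hb
        simp at this
        omega
      rw [Finsupp.notMem_support_iff.1 hb]
      simp [mon, Ne.symm h0, Ne.symm h1]
  · omega

theorem eval_pt {n : ℕ} {f : MvPolynomial ℕ ℂ} (hf : f.IsHomogeneous n)
    (hs : f ∈ MvPolynomial.supported ℂ ({0, 1} : Set ℕ)) (s : ℂ) :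
    eval (pt s) f = ∑ j ∈ range (n + 1), coeff (mon n j) f * s ^ j := by
  have hinj : Function.Injective (mon n) := by
    intro i j h
    have := congrArg (fun m : ℕ →₀ ℕ => m 0) h
    simpa [mon_zero] using this
  have hsub : f.support ⊆ (range (n + 1)).map ⟨mon n, hinj⟩ := by
    intro m hm
    have := coeff_ne hf hs (MvPolynomial.mem_support_iff.1 hm)
    rw [Finset.mem_map]
    exact ⟨m 0, Finset.mem_range.2 (by omega), this.1.symm⟩
  rw [MvPolynomial.eval_eq, Finset.sum_subset hsub]
  · rw [Finset.sum_map]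
    refine Finset.sum_congr rfl fun j hj => ?_
    simp only [Function.Embedding.coeFn_mk]
    congr 1
    have hj' : j < n + 1 := Finset.mem_range.1 hj
    have h1 : ∀ (m : ℕ →₀ ℕ), ∏ i ∈ m.support, pt s i ^ m i = s ^ (m 0) := by
      intro m
      have h2 : ∀ i, pt s i ^ m i = if i = 0 then s ^ (m 0) else 1 := by
        intro i
        by_cases hi : i = 0
        · subst hi; simp [pt]
        · simp [pt, hi]
      simp only [h2]
      rw [Finset.prod_ite_eq']
      split_ifs with h3
      · rfl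
      · rw [Finsupp.notMem_support_iff.1 h3, pow_zero]
    rw [h1, mon_zero]
  · intro m _ hm
    rw [MvPolynomial.notMem_support_iff.1 hm, zero_mul]

end Pool.U157.NN
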