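import Pool.Agent.U157.NN.Dep

set_option autoImplicit false

namespace Pool.U157.NN

open MvPolynomial Finset

/-! ### First obstruction: layers three and four have at most four neurons -/

abbrev S1 : Type := Tn 4 ⊕ ((Fin 4 × Fin 3) ⊕ (Fin 4 × Fin 4))

theorem card_S1 : Fintype.card S1 < 65 := by
  rw [Fintype.card_sum, Fintype.card_sum, card_Tn]
  simp only [Fintype.card_prod, Fintype.card_fin]
  decide

/-- monic quartic -/
noncomputable def Hm (s : Fin 65) (k : Fin 4) : MvPolynomial S1 ℂ :=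
  C ((((s : ℕ) : ℂ)) ^ 4) +
    ∑ l : Fin 4, X (Sum.inr (Sum.inr (k, l))) * C ((((s : ℕ) : ℂ)) ^ (l : ℕ))

noncomputable def R1 (s : Fin 65) : MvPolynomial S1 ℂ :=
  ∑ t : Tn 4, X (Sum.inl t) * ∏ i : Fin 4,
    ((Hm s 0 ^ 2 + ∑ k : Fin 3, X (Sum.inr (Sum.inl (i, k))) * Hm s k.succ ^ 2) ^ 2) ^ t.1 i

/-- the general member of the family -/
noncomputable def F1 (φ : Tn 4 → ℂ) (B : Fin 4 → Fin 4 → ℂ) (H : Fin 4 → Fin 5 → ℂ)
    (s : Fin 65) : ℂ :=
  ∑ t : Tn 4, φ t * ∏ i : Fin 4,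
    ((∑ k : Fin 4, B i k * (∑ l : Fin 5, H k l * ((s : ℕ) : ℂ) ^ (l : ℕ)) ^ 2) ^ 2) ^ t.1 i

theorem F1_normal (φ : Tn 4 → ℂ) (B : Fin 4 → Fin 4 → ℂ) (H : Fin 4 → Fin 5 → ℂ)
    (hB : ∀ i, B i 0 ≠ 0) (hH : ∀ k, H k 4 ≠ 0) :
    ∃ θ : S1 → ℂ, ∀ s, F1 φ B H s = eval θ (R1 s) := by
  set c : Fin 4 → ℂ := fun i => B i 0 * H 0 4 ^ 2 with hc
  have hc0 : ∀ i, c i ≠ 0 := fun i => mul_ne_zero (hB i) (pow_ne_zero _ (hH 0))
  refine ⟨Sum.elim (fun t => φ t * ∏ i, (c i ^ 2) ^ t.1 i)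
    (Sum.elim (fun p => B p.1 p.2.succ * H p.2.succ 4 ^ 2 / c p.1)
      (fun p => H p.1 p.2.castSucc / H p.1 4)), fun s => ?_⟩
  unfold F1 R1
  simp only [map_sum, map_mul, map_prod, map_pow, map_add, eval_X, Sum.elim_inl, Sum.elim_inr]
  refine Finset.sum_congr rfl fun t _ => ?_
  rw [mul_assoc, ← Finset.prod_mul_distrib]
  refine congrArg₂ (· * ·) rfl ?_
  refine Finset.prod_congr rfl fun i _ => ?_
  rw [← mul_pow, ← mul_pow]
  refine congrArg (fun z => (z ^ 2) ^ t.1 i) ?_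
  have hm : ∀ k : Fin 4, (∑ l : Fin 5, H k l * ((s : ℕ) : ℂ) ^ (l : ℕ)) =
      H k 4 * eval (Sum.elim (fun t => φ t * ∏ i, (c i ^ 2) ^ t.1 i)
        (Sum.elim (fun p => B p.1 p.2.succ * H p.2.succ 4 ^ 2 / c p.1)
          (fun p => H p.1 p.2.castSucc / H p.1 4)) : S1 → ℂ) (Hm s k) := by
    intro k
    unfold Hm
    simp only [map_sum, map_mul, map_add, eval_X, eval_C, Sum.elim_inr]
    rw [Fin.sum_univ_castSucc, mul_add, Finset.mul_sum, add_comm]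
    refine congrArg₂ (· + ·) rfl ?_
    refine Finset.sum_congr rfl fun l _ => ?_
    have := hH k
    simp only [Fin.val_castSucc]
    field_simp
  simp only [hm]
  rw [Fin.sum_univ_succ, mul_add, Finset.mul_sum]
  refine congrArg₂ (· + ·) ?_ ?_
  · rw [hc]; ring
  · refine Finset.sum_congr rfl fun k _ => ?_
    have := hc0 i
    field_simp

theorem F1_vanish (Q : MvPolynomial (Fin 65) ℂ)
    (hQ : ∀ θ : S1 → ℂ, eval (fun s => eval θ (R1 s)) Q = 0)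
    (φ : Tn 4 → ℂ) (B : Fin 4 → Fin 4 → ℂ) (H : Fin 4 → Fin 5 → ℂ) :
    eval (fun s => F1 φ B H s) Q = 0 := by
  set g : ℂ → ℂ := fun ε => eval (fun s => F1 φ (fun i k => B i k + ε) (fun k l => H k l + ε) s) Q
    with hg
  have hcont : Continuous g := by
    rw [hg]
    refine (MvPolynomial.continuous_eval Q).comp (continuous_pi fun s => ?_)
    unfold F1
    fun_prop
  set bad : Set ℂ := Set.range (fun i : Fin 4 => - B i 0) ∪ Set.range (fun k : Fin 4 => - H k 4)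
    with hbad
  have hfin : bad.Countable :=
    ((Set.finite_range _).union (Set.finite_range _)).countable
  have hdense : Dense (badᶜ) := hfin.dense_compl ℂ
  have hz : Set.EqOn g (fun _ => 0) badᶜ := by
    intro ε hε
    simp only [hbad, Set.mem_compl_iff, Set.mem_union, Set.mem_range, not_or, not_exists] at hε
    obtain ⟨θ, hθ⟩ := F1_normal φ (fun i k => B i k + ε) (fun k l => H k l + ε)
      (fun i h => hε.1 i (by linear_combination (-1 : ℂ) * h))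
      (fun k h => hε.2 k (by linear_combination (-1 : ℂ) * h))
    rw [hg]
    simp only [hθ]
    exact hQ θ
  have h0 : g = fun _ => 0 := Continuous.ext_on hdense hcont continuous_const hz
  have h1 := congrFun h0 0
  rw [hg] at h1
  simpa using h1

theorem not_fill_one (e : ℕ → ℕ) (h0 : e 0 = 2) (h7 : e 7 = 1) (h3 : e 3 ≤ 4) (h4 : e 4 ≤ 4) :
    ¬ Fill e := by
  obtain ⟨Q, hQ, hQ'⟩ := exists_rel card_S1 R1
  refine not_fill e h0 h7 Q hQ fun W => ?_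
  obtain ⟨φ, hφ⟩ := top_expand e W 4 2 (by norm_num) h4
  obtain ⟨B, hB⟩ := layer4 e W 3 (by norm_num) h3
  obtain ⟨H, hH⟩ := bottom e h0 W 2 5 rfl
  rw [← F1_vanish Q hQ' φ B H]
  congr 2
  funext s
  have e1 : nv e W (pt ((s : ℕ) : ℂ)) 7 0 = _ := hφ (pt ((s : ℕ) : ℂ))
  rw [e1]
  unfold F1
  refine Finset.sum_congr rfl fun t _ => ?_
  refine congrArg₂ (· * ·) rfl ?_
  refine Finset.prod_congr rfl fun i _ => ?_
  refine congrArg (fun z => (z ^ 2) ^ t.1 i) ?_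
  have e2 : nv e W (pt ((s : ℕ) : ℂ)) 4 i = _ := hB (pt ((s : ℕ) : ℂ)) i
  rw [e2]
  refine Finset.sum_congr rfl fun b _ => ?_
  refine congrArg₂ (· * ·) rfl ?_
  refine congrArg (fun z => z ^ 2) ?_
  have e3 : nv e W (pt ((s : ℕ) : ℂ)) 3 b = _ := hH ((s : ℕ) : ℂ) b
  rw [e3]

end Pool.U157.NN
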